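import Pool.Agent.Helper2.Sey3.TM

/-!
# Project SEY3, packet V1: many free inner colours
-/

set_option autoImplicit false

namespace Pool.Agent.Helper23.Sey3

open Pool.Agent.Helper41.Girth4 (Pr)
open Pool.Agent.Helper41.Girth4
open Pool.Agent.Helper63.Sey3
open Pool.Agent.Helper2.Sey3 (col_eq_pk col_eq_co)

section

variable {V : Type} (P : Sy V)

/-- a bin without colours of own neighbours gives a free colour -/
theorem Fa_of (ω : P.Om) (w : V) (b : Fin (P.qm / 3))
    (h : ∀ u, P.Own w u → ∀ x : Fin P.q, P.col ω u = some x → (x : ℕ) / 3 ≠ b) :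
    P.Fa ω w (3 * b + 1) := by
  have hb := b.2
  refine ⟨by omega, by omega, fun u hu x hx => ?_⟩
  have h1 := h u hu x hx
  omega

theorem Fa_finite (ω : P.Om) (w : V) : Finite {a : ℕ // P.Fa ω w a} :=
  ((Set.finite_lt_nat P.qm).subset fun a (ha : P.Fa ω w a) => by
    have := ha.2.1
    change a < P.qm
    omega).to_subtype

/-- the colours of a bin -/
def Bb (b : ℕ) : Finset (Fin P.q) := Finset.univ.filter fun x => (x : ℕ) / 3 = b

theorem card_Bb (b : ℕ) : (Bb P b).card ≤ 3 := by
  have h1 : (Bb P b).card ≤ (Finset.range 3).card := by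
    refine Finset.card_le_card_of_injOn (fun x => (x : ℕ) - 3 * b) ?_ ?_
    · intro x hx
      obtain ⟨-, h⟩ := Finset.mem_filter.1 (Finset.mem_coe.1 hx)
      change (x : ℕ) - 3 * b ∈ (Finset.range 3 : Set ℕ)
      rw [Finset.coe_range, Set.mem_Iio]
      omega
    · intro x hx y hy h
      obtain ⟨-, h1⟩ := Finset.mem_filter.1 (Finset.mem_coe.1 hx)
      obtain ⟨-, h2⟩ := Finset.mem_filter.1 (Finset.mem_coe.1 hy)
      apply Fin.ext
      simp only at h
      omega
  simpa using h1

theorem mem_Bb {b : ℕ} {x : Fin P.q} : x ∈ Bb P b ↔ (x : ℕ) / 3 = b := by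
  unfold Bb
  simp

end

theorem goalV1 : GoalPICK → GoalSEQ → GoalRES → GoalSTL → GoalMISS → GoalV1 := by
  classical
  intro hPICK hSEQ hRES hSTL hMISS c hc
  set c1 : ℝ := Real.exp (-(12 / c)) * Real.exp (-6) / 100 with hc1
  have hc1pos : 0 < c1 := by positivity
  refine ⟨c1, max 28 (max ⌈12 / c⌉₊ ⌈1 / c1⌉₊), hc1pos, ?_⟩
  intro V _ P κ hD hκ w
  have hD28 : 28 ≤ P.D := (le_max_left _ _).trans hD
  have hDc : 12 / c ≤ P.D := (Nat.le_ceil _).trans
    (by exact_mod_cast ((le_max_left _ _).trans (le_max_right _ _)).trans hD)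
  have hDc1 : 1 / c1 ≤ P.D := (Nat.le_ceil _).trans
    (by exact_mod_cast ((le_max_right _ _).trans (le_max_right _ _)).trans hD)
  have hκ12 : (12 : ℝ) ≤ κ := by
    rw [div_le_iff₀ hc] at hDc
    linarith
  have hcD : 1 ≤ c1 * P.D := by
    rw [div_le_iff₀ hc1pos] at hDc1
    linarith
  have hκ0 : (0 : ℝ) < κ := by linarith
  have hκ1 : 1 ≤ κ := by
    have : (1 : ℝ) ≤ κ := by linarith
    exact_mod_cast this
  have hqD : (P.D : ℝ) ≤ P.q := by exact_mod_cast P.D_le_q
  have hDR : (28 : ℝ) ≤ P.D := by exact_mod_cast hD28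
  have hq0 : (0 : ℝ) < P.q := by linarith
  -- the number of bins
  set B : ℕ := P.qm / 3 with hB
  have hBD : (P.D : ℝ) / 7 ≤ B := by
    have h1 := P.hqm2
    have h2 : P.D ≤ 7 * B := by omega
    rw [div_le_iff₀ (by norm_num)]
    have h3 : (P.D : ℝ) ≤ 7 * B := by exact_mod_cast h2
    linarith
  set S : Finset V := Finset.univ.filter fun u => P.Own w u with hS
  have hScard : S.card ≤ P.D := by
    have h1 := P.dg_le w
    unfold Sy.dg at h1
    rwa [Nat.card_eq_fintype_card, Fintype.card_subtype] at h1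
  have hmemS : ∀ {u}, u ∈ S ↔ P.Own w u := by
    intro u
    rw [hS, Finset.mem_filter]
    simp
  set y0 : ℝ := Real.exp (-6) * B / 2 with hy0
  set y1 : ℝ := Real.exp (-(12 / c)) * y0 / 2 with hy1
  have hE6 : 0 < Real.exp (-6) := Real.exp_pos _
  have hE12 : 0 < Real.exp (-(12 / c)) := Real.exp_pos _
  have hE12' : Real.exp (-(12 / c)) ≤ 1 := by
    rw [Real.exp_le_one_iff]
    have : 0 ≤ 12 / c := by positivity
    linarith
  have hB0 : (0 : ℝ) ≤ B := Nat.cast_nonneg _
  have hy0pos : 0 ≤ y0 := by positivity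
  have hy1ge : 2 * (c1 * P.D) ≤ y1 := by
    have h1 : y1 = Real.exp (-(12 / c)) * Real.exp (-6) * B / 4 := by rw [hy1, hy0]; ring
    rw [h1, hc1]
    have h2 : 0 < Real.exp (-(12 / c)) * Real.exp (-6) := by positivity
    have h3 := mul_le_mul_of_nonneg_left hBD h2.le
    nlinarith
  have hy10 : y1 ≤ y0 := by
    rw [hy1]
    nlinarith
  -- the bins which are not hit in round 0
  let h0 : V → P.Om → Fin B → Prop := fun u ω b => P.al (ω u) ∧ ((P.co (ω u) : Fin P.q) : ℕ) / 3 = b
  let G : P.Om → Prop := fun ω => (∀ u, P.Own w u → P.Gd κ ω u) ∧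
    y0 < (Nat.card {b : Fin B // ∀ i ∈ S, ¬ h0 i ω b} : ℝ)
  let E : P.Om → Prop := fun ω => (Nat.card {a : ℕ // P.Fa ω w a} : ℝ) < c1 * P.D
  have hGs : ∀ ω π, G ω → G (P.setpm ω π) := fun ω π h => h
  have hP0 : Pr (fun ω : P.Om => (Nat.card {b : Fin B // ∀ i ∈ S, ¬ h0 i ω b} : ℝ) ≤ y0) ≤
      Real.exp (-y0) := by
    have h1 := hSEQ V P.Lab (Fin B) S P.idx h0 (3 / (2 * P.q)) P.D hScard P.hidx.injOn
      (by positivity) (by
        rw [div_le_iff₀ (by positivity)]
        linarith) ?_ ?_ ?_ y0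
    · refine h1.trans (Real.exp_le_exp.2 ?_)
      have h2 : Real.exp (-6) ≤ Real.exp (-(4 * (3 / (2 * (P.q : ℝ))) * P.D)) := by
        apply Real.exp_le_exp.2
        rw [show 4 * (3 / (2 * (P.q : ℝ))) * (P.D : ℝ) = 6 * (P.D / P.q) by field_simp; ring]
        have : (P.D : ℝ) / P.q ≤ 1 := by rw [div_le_one hq0]; exact hqD
        linarith
      rw [Fintype.card_fin]
      have h3 := mul_le_mul_of_nonneg_right h2 hB0
      have h4 : Real.exp (-6) * B = 2 * y0 := by rw [hy0]; ring
      linarith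
    · intro i _ ω ω' h b hb
      have := h i fun _ => le_rfl
      change P.al (ω' i) ∧ ((P.co (ω' i) : Fin P.q) : ℕ) / 3 = b
      rw [← this]
      exact hb
    · intro i _ ω b b' hb hb'
      exact Fin.ext (hb.2.symm.trans hb'.2)
    · intro i _ ω b
      have e1 : Pr (fun l : P.Lab => h0 i (Function.update ω i l) b) =
          Pr (fun z : Bool × Fin P.q => z.1 = true ∧ z.2 ∈ Bb P b) := by
        rw [← Pr_fst (β := (Fin P.Z × Equiv.Perm (Fin P.q)) × (Fin P.J → Fin P.L) ×
          (Fin P.qm × Fin P.J)) (fun z : Bool × Fin P.q => z.1 = true ∧ z.2 ∈ Bb P b)]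
        apply Pr_congr
        intro l
        change (P.al ((Function.update ω i l) i) ∧
          ((P.co ((Function.update ω i l) i) : Fin P.q) : ℕ) / 3 = b) ↔ _
        rw [Function.update_self, mem_Bb]
        exact Iff.rfl
      rw [e1, Pr_prod (fun z : Bool => z = true) (fun z : Fin P.q => z ∈ Bb P b),
        Pr_eq_card (fun z : Bool => z = true), Pr_eq_card (fun z : Fin P.q => z ∈ Bb P b)]
      have h3 : ((Finset.univ.filter fun z : Fin P.q => z ∈ Bb P b).card : ℝ) ≤ 3 := by
        have := card_Bb P b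
        rw [Finset.filter_mem_eq_inter, Finset.univ_inter]
        exact_mod_cast this
      have h4 : ((Finset.univ.filter fun z : Bool => z = true).card : ℝ) = 1 := by
        norm_cast
      rw [h4, Fintype.card_bool, Fintype.card_fin, div_mul_div_comm, one_mul]
      push_cast
      exact div_le_div_of_nonneg_right h3 (by positivity)
  -- the conditional probability of `E`
  have hPE : ∀ ω, G ω → Pr (fun π : V → Equiv.Perm (Fin P.q) => E (P.setpm ω π)) ≤
      Real.exp (-y1) := by
    intro ω hG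
    set b : ℕ := ∑ u, P.idx u with hb
    have hbu : ∀ u, P.idx u < b + 1 := fun u =>
      Nat.lt_succ_of_le (Finset.single_le_sum (fun _ _ => Nat.zero_le _) (Finset.mem_univ u))
    let rk : V → ℕ := fun u => P.rd (ω u) * (b + 1) + P.idx u
    let Bn : Type := {b : Fin B // ∀ i ∈ S, ¬ h0 i ω b}
    let hit : V → (V → Equiv.Perm (Fin P.q)) → Bn → Prop := fun u π x =>
      P.c0 ω u = none ∧
        P.pk (P.setpm ω π) (P.st (P.setpm ω π) (P.rd (ω u))) u ∈ Bb P (x.1 : ℕ)
    have hrk : ∀ x i, P.rd (ω x) < P.rd (ω i) → rk x ≤ rk i := by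
      intro x i h
      have h1 := hbu x
      have h2 : (P.rd (ω x) + 1) * (b + 1) ≤ P.rd (ω i) * (b + 1) := Nat.mul_le_mul_right _ h
      have h3 : (P.rd (ω x) + 1) * (b + 1) = P.rd (ω x) * (b + 1) + (b + 1) := by ring
      change P.rd (ω x) * (b + 1) + P.idx x ≤ P.rd (ω i) * (b + 1) + P.idx i
      omega
    have hseq := hSEQ V (Equiv.Perm (Fin P.q)) Bn S rk hit (3 / κ) P.D hScard ?_
      (by positivity) (by
        rw [div_le_iff₀ hκ0]
        linarith) ?_ ?_ ?_ y1
    · refine le_trans (Pr_mono fun π h => ?_) (hseq.trans (Real.exp_le_exp.2 ?_))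
      · have h1 : Nat.card {x : Bn // ∀ i ∈ S, ¬ hit i π x} ≤
            Nat.card {a : ℕ // P.Fa (P.setpm ω π) w a} := by
          have := Fa_finite P (P.setpm ω π) w
          refine Nat.card_le_card_of_injective (fun x => ⟨3 * (x.1.1 : ℕ) + 1,
            Fa_of P _ w x.1.1 fun u hu y hy => ?_⟩) ?_
          · rcases hc0 : P.c0 ω u with _ | z
            · have h1 := col_eq_pk P (P.setpm ω π) u hc0 hy
              have h2 := x.2 u (hmemS.2 hu)
              intro h3
              apply h2
              refine ⟨hc0, ?_⟩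
              rw [mem_Bb, ← h3, ← h1]
              rfl
            · obtain ⟨h1, h2, h3⟩ := col_eq_co P (P.setpm ω π) u hc0 hy
              intro h4
              apply x.1.2 u (hmemS.2 hu)
              refine ⟨h2, ?_⟩
              rw [← h4, h1, ← h3]
              rfl
          · intro x x' hx
            have h2 := congrArg Subtype.val hx
            simp only at h2
            apply Subtype.ext
            apply Subtype.ext
            apply Fin.ext
            omega
        have h2 : (Nat.card {x : Bn // ∀ i ∈ S, ¬ hit i π x} : ℝ) ≤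
            (Nat.card {a : ℕ // P.Fa (P.setpm ω π) w a} : ℝ) := by exact_mod_cast h1
        change (Nat.card {a : ℕ // P.Fa (P.setpm ω π) w a} : ℝ) < c1 * P.D at h
        have h3 : 0 ≤ c1 * P.D := by positivity
        linarith
      · have h2 : Real.exp (-(12 / c)) ≤ Real.exp (-(4 * (3 / (κ : ℝ)) * P.D)) := by
          apply Real.exp_le_exp.2
          rw [show 4 * (3 / (κ : ℝ)) * (P.D : ℝ) = 12 * (P.D / κ) by ring, div_eq_mul_one_div 12 c]
          have : (P.D : ℝ) / κ ≤ 1 / c := by
            rw [div_le_div_iff₀ hκ0 hc]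
            linarith
          linarith
        have h5 : y0 < (Fintype.card Bn : ℝ) := by
          have := hG.2
          rwa [Nat.card_eq_fintype_card] at this
        have h6 : Real.exp (-(12 / c)) * y0 ≤
            Real.exp (-(4 * (3 / (κ : ℝ)) * P.D)) * (Fintype.card Bn : ℝ) :=
          mul_le_mul h2 h5.le hy0pos (Real.exp_pos _).le
        have h7 : Real.exp (-(12 / c)) * y0 = 2 * y1 := by rw [hy1]; ring
        linarith
    · intro u _ u' _ h
      apply P.hidx
      have h1 : ∀ v, rk v % (b + 1) = P.idx v := by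
        intro v
        change (P.rd (ω v) * (b + 1) + P.idx v) % (b + 1) = P.idx v
        rw [Nat.add_comm, Nat.add_mul_mod_self_right, Nat.mod_eq_of_lt (hbu v)]
      rw [← h1 u, ← h1 u', h]
    · rintro i _ π π' h x ⟨hc0, h1⟩
      have h2 := hSTL V P ω π π' (P.rd (ω i)) fun x hx => h x fun _ => hrk x i hx
      refine ⟨hc0, ?_⟩
      rw [← h2.2 i (h i fun _ => le_rfl)]
      exact h1
    · rintro i _ π x x' ⟨-, h1⟩ ⟨-, h2⟩
      rw [mem_Bb] at h1 h2
      exact Subtype.ext (Fin.ext (h1.symm.trans h2))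
    · intro i hi π x
      by_cases hc0 : P.c0 ω i = none
      · set s := P.st (P.setpm ω π) (P.rd (ω i)) with hs
        have h1 : ∀ l : Equiv.Perm (Fin P.q), hit i (Function.update π i l) x →
            Pool.Agent.Helper8.Sey.Sys.pick l (P.used s i) ∈ Bb P (x.1 : ℕ) := by
          rintro l ⟨-, h2⟩
          have h3 : P.st (P.setpm ω (Function.update π i l)) (P.rd (ω i)) = s :=
            (hSTL V P ω (Function.update π i l) π (P.rd (ω i)) fun x hx => by
              rw [Function.update_of_ne]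
              rintro rfl
              exact lt_irrefl _ hx).1
          rw [h3] at h2
          have h4 : P.pk (P.setpm ω (Function.update π i l)) s i =
              Pool.Agent.Helper8.Sey.Sys.pick (Function.update π i l i) (P.used s i) := rfl
          rw [h4, Function.update_self] at h2
          exact h2
        have hm : κ ≤ Nat.card {b // ¬ P.used s i b} := by
          have h2 : Nat.card {a // P.used s i a} + κ ≤ P.D :=
            hMISS V P κ (P.setpm ω π) i (P.rd (ω i)) (hG.1 i (hmemS.1 hi))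
          have h3 : Nat.card {b // ¬ P.used s i b} + Nat.card {b // P.used s i b} = P.q := by
            rw [Nat.card_eq_fintype_card, Nat.card_eq_fintype_card, Fintype.card_subtype_compl,
              Fintype.card_fin]
            have h4 := Fintype.card_subtype_le (P.used s i)
            rw [Fintype.card_fin] at h4
            omega
          have h4 := P.D_le_q
          omega
        refine (Pr_mono h1).trans ((hPICK P.q (P.used s i) (Bb P (x.1 : ℕ)) κ hκ1 hm).trans ?_)
        exact div_le_div_of_nonneg_right (by exact_mod_cast card_Bb P _) hκ0.le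
      · have h1 : Pr (fun l : Equiv.Perm (Fin P.q) => hit i (Function.update π i l) x) = 0 := by
          rw [← Pr_false (α := Equiv.Perm (Fin P.q))]
          exact Pr_congr fun l => ⟨fun h => hc0 h.1, False.elim⟩
        rw [h1]
        positivity
  have hfin := (hRES V P G E (Real.exp (-y1)) (Real.exp_pos _).le hGs).1 hPE
  have hun : Pr (fun ω : P.Om => (Nat.card {a : ℕ // P.Fa ω w a} : ℝ) < c1 * P.D ∧
      ∀ u, P.Own w u → P.Gd κ ω u) ≤
      Pr (fun ω : P.Om => (Nat.card {b : Fin B // ∀ i ∈ S, ¬ h0 i ω b} : ℝ) ≤ y0) +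
      Pr (fun ω : P.Om => G ω ∧ E ω) := by
    refine le_trans (Pr_mono fun ω h => ?_) (Pr_or_le _ _)
    by_cases hh : (Nat.card {b : Fin B // ∀ i ∈ S, ¬ h0 i ω b} : ℝ) ≤ y0
    · exact Or.inl hh
    · exact Or.inr ⟨⟨h.2, not_le.1 hh⟩, h.1⟩
  have hexp1 : Real.exp (-y0) ≤ Real.exp (-(c1 * P.D)) * Real.exp (-(c1 * P.D)) := by
    rw [← Real.exp_add]
    apply Real.exp_le_exp.2
    linarith
  have hexp2 : Real.exp (-y1) ≤ Real.exp (-(c1 * P.D)) * Real.exp (-(c1 * P.D)) := by
    rw [← Real.exp_add]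
    apply Real.exp_le_exp.2
    linarith
  have hhalf : Real.exp (-(c1 * P.D)) ≤ 1 / 2 := by
    have h1 : 2 ≤ Real.exp (c1 * P.D) := by
      have := Real.add_one_le_exp (c1 * P.D)
      linarith
    rw [Real.exp_neg, one_div]
    exact inv_anti₀ (by norm_num) h1
  have hpos : 0 < Real.exp (-(c1 * P.D)) := Real.exp_pos _
  have : Real.exp (-(c1 * P.D)) * Real.exp (-(c1 * P.D)) ≤ Real.exp (-(c1 * P.D)) * (1 / 2) :=
    mul_le_mul_of_nonneg_left hhalf hpos.le
  linarith

end Pool.Agent.Helper23.Sey3
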